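import Pool.Agent.Helper82.RD.Defs

/-!
# Project RD (MP_86d903_lc): module ATP (properties of atoms)
-/

set_option autoImplicit false

open Finset MP86d903

namespace Pool.Agent.Helper82.RD

variable {ι V : Type} [DecidableEq ι] [Fintype ι] [Fintype V] [DecidableEq V]
  {vs ng : ι → Finset V} {q : ℕ}

omit [Fintype ι] in
private theorem mATP_uni {A : Finset V} (hCL : CL vs q A) {x : V} (hx : x ∉ A) {c c' : ι}
    (h : (vs c \ A).card = 2) (hc : x ∈ vs c) (h' : (vs c' \ A).card = 2) (hc' : x ∈ vs c') :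
    c = c' := by
  by_contra hne
  have h1 : ¬ vs c ⊆ A := fun hs => hx (hs hc)
  have h2 : ¬ vs c' ⊆ A := fun hs => hx (hs hc')
  have h3 := hCL.int c c' hne h1 h2
  have h4 : 0 < ((vs c ∩ vs c') \ A).card :=
    Finset.card_pos.2 ⟨x, Finset.mem_sdiff.2 ⟨Finset.mem_inter.2 ⟨hc, hc'⟩, hx⟩⟩
  omega

omit [Fintype ι] in
private theorem mATP_pai {A : Finset V} (hCL : CL vs q A) (c : ι) (x : V)
    (h : (vs c \ A).card = 2) (hx : x ∈ vs c \ A) : att vs A x = vs c \ A := by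
  obtain ⟨hc, hA⟩ := Finset.mem_sdiff.1 hx
  have he : ∃ c, (vs c \ A).card = 2 ∧ x ∈ vs c := ⟨c, h, hc⟩
  have h1 : att vs A x = vs he.choose \ A := by
    unfold att
    rw [dif_pos he]
  rw [h1, mATP_uni hCL hA he.choose_spec.1 he.choose_spec.2 h hc]

omit [Fintype ι] in
private theorem mATP_sin {A : Finset V} (x : V)
    (h : ∀ c, (vs c \ A).card = 2 → x ∉ vs c) : att vs A x = {x} := by
  unfold att
  rw [dif_neg]
  rintro ⟨c, h1, h2⟩
  exact h c h1 h2

omit [Fintype ι] in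
private theorem mATP_cas {A : Finset V} (hCL : CL vs q A) (x : V) (hx : x ∉ A) :
    (∃ c, (vs c \ A).card = 2 ∧ x ∈ vs c \ A ∧ att vs A x = vs c \ A) ∨
      ((∀ c, (vs c \ A).card = 2 → x ∉ vs c) ∧ att vs A x = {x}) := by
  by_cases h : ∃ c, (vs c \ A).card = 2 ∧ x ∈ vs c
  · obtain ⟨c, h1, h2⟩ := h
    have h3 : x ∈ vs c \ A := Finset.mem_sdiff.2 ⟨h2, hx⟩
    exact Or.inl ⟨c, h1, h3, mATP_pai hCL c x h1 h3⟩
  · have h1 : ∀ c, (vs c \ A).card = 2 → x ∉ vs c := fun c h1 h2 => h ⟨c, h1, h2⟩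
    exact Or.inr ⟨h1, mATP_sin x h1⟩

theorem mATP {A : Finset V} (hCL : CL vs q A) : AP vs A where
  mem := by
    intro x hx
    rcases mATP_cas hCL x hx with ⟨c, _, h2, h3⟩ | ⟨_, h3⟩
    · rw [h3]
      exact h2
    · rw [h3]
      exact Finset.mem_singleton_self x
  dis := by
    intro x hx
    rcases mATP_cas hCL x hx with ⟨c, _, h2, h3⟩ | ⟨_, h3⟩
    · rw [h3]
      exact Finset.sdiff_disjoint
    · rw [h3]
      exact Finset.disjoint_singleton_left.2 hx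
  two := by
    intro x hx
    rcases mATP_cas hCL x hx with ⟨c, h1, h2, h3⟩ | ⟨_, h3⟩
    · rw [h3, h1]
    · rw [h3, Finset.card_singleton]
      omega
  isa := by
    intro x hx
    rcases mATP_cas hCL x hx with ⟨c, h1, h2, h3⟩ | ⟨h1, h3⟩
    · exact Or.inr ⟨c, h1, h3⟩
    · exact Or.inl ⟨x, hx, h3, h1⟩
  eqv := by
    intro x y hx hy
    rcases mATP_cas hCL x hx with ⟨c, h1, h2, h3⟩ | ⟨h1, h3⟩
    · rw [h3] at hy ⊢
      exact mATP_pai hCL c y h1 hy
    · rw [h3] at hy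
      rw [Finset.mem_singleton.1 hy]
  pai := fun c x h hx => mATP_pai hCL c x h hx
  sin := fun x _ h => mATP_sin x h
  ats := by
    intro e x he hx
    rcases he with ⟨x0, _, h2, h3⟩ | ⟨c, h1, h2⟩
    · rw [h2] at hx
      rw [Finset.mem_singleton.1 hx, h2]
      exact mATP_sin x0 h3
    · rw [h2] at hx ⊢
      exact mATP_pai hCL c x h1 hx

end Pool.Agent.Helper82.RD
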